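import Pool.Agent.H4.Cube.PartJ

/-!
# Integrals of powers of polynomials over the unit cube

If the part of `f ∈ ℂ[x₁, …, xₙ]` of highest degree in as many variables as possible is built
from pure powers and powers of affine-linear forms, then `∫_{[0,1]ⁿ} f ^ m ≠ 0` for infinitely
many `m`.
-/

set_option autoImplicit false

namespace Pool.Agent.Results.MP_47888e_al.SplitTop

open MvPolynomial

/-- The number of variables that have exponent exactly `d` in the monomial `x ^ κ`. -/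
def numTop {n : ℕ} (d : ℕ) (κ : Fin n →₀ ℕ) : ℕ := (Finset.univ.filter fun i => κ i = d).card

/-- The sum of the terms of `f` in which every variable `x_i`, `i ∈ I`, has exponent `d`. -/
noncomputable def topPart {n : ℕ} (d : ℕ) (I : Finset (Fin n)) (f : MvPolynomial (Fin n) ℂ) :
    MvPolynomial (Fin n) ℂ :=
  ∑ κ ∈ f.support with ∀ i ∈ I, κ i = d, monomial κ (f.coeff κ)

/-- `P = c * ∏_{i ∈ I} x_i ^ d * ∏_t (l t) ^ (u t)` for a constant `c`, exponents `u t < d` and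
polynomials `l t` of total degree at most `1` in pairwise disjoint sets of variables outside `I`.
(`c = 0` is allowed, so `P = 0` is of this form.) -/
def Split {n : ℕ} (d : ℕ) (I : Finset (Fin n)) (P : MvPolynomial (Fin n) ℂ) : Prop :=
  ∃ (k : ℕ) (c : ℂ) (l : Fin k → MvPolynomial (Fin n) ℂ) (u : Fin k → ℕ),
    (∀ t, (l t).totalDegree ≤ 1) ∧ (∀ t, Disjoint (l t).vars I) ∧
    (∀ s t, s ≠ t → Disjoint (l s).vars (l t).vars) ∧ (∀ t, u t < d) ∧
    P = C c * (∏ i ∈ I, X i ^ d) * ∏ t, l t ^ u t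

/-- Let `d ≥ 1` bound all exponents of `f`, and let `q` be the maximum over the monomials of `f`
of the number of variables with exponent `d`. If for each set `I` of `q` variables the part of
`f` of degree `d` in all variables of `I` splits, then it is not true that
`∫_{[0,1]ⁿ} f ^ m = 0` for all large `m`. -/
theorem result (n d q : ℕ) (f : MvPolynomial (Fin n) ℂ) (hd : 1 ≤ d)
    (h1 : ∀ κ ∈ f.support, ∀ i, κ i ≤ d)
    (h2 : ∀ κ ∈ f.support, numTop d κ ≤ q) (h3 : ∃ κ ∈ f.support, numTop d κ = q)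
    (h4 : ∀ I : Finset (Fin n), I.card = q → Split d I (topPart d I f)) :
    ¬ ∃ N : ℕ, ∀ m : ℕ, N ≤ m →
      ∫ x in Set.Icc (0 : Fin n → ℝ) 1,
        MvPolynomial.eval (fun i => ((x i : ℝ) : ℂ)) (f ^ m) = 0 := by
  rintro ⟨N, hN⟩
  obtain ⟨m, hm, hne⟩ := Pool.Agent.H4.Cube.main (q := q) f hd h1 h2 h3 h4 N
  exact hne (hN m hm)

/-- Instance: all nonzero polynomials of degree at most one in each variable. -/
theorem multiaffine (n : ℕ) (f : MvPolynomial (Fin n) ℂ) (hf : f ≠ 0)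
    (h1 : ∀ κ ∈ f.support, ∀ i, κ i ≤ 1) :
    ¬ ∃ N : ℕ, ∀ m : ℕ, N ≤ m →
      ∫ x in Set.Icc (0 : Fin n → ℝ) 1,
        MvPolynomial.eval (fun i => ((x i : ℝ) : ℂ)) (f ^ m) = 0 := by
  rintro ⟨N, hN⟩
  have hne : f.support.Nonempty := by
    rw [Finset.nonempty_iff_ne_empty]
    exact fun h => hf (support_eq_empty.1 h)
  obtain ⟨κ, hκ, hκq⟩ := Finset.exists_mem_eq_sup f.support hne
    fun κ => (Pool.Agent.H4.Cube.tops 1 κ).card
  obtain ⟨m, hm, hne⟩ := Pool.Agent.H4.Cube.small (d := 1) f le_rfl h1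
    (fun κ hκ => Finset.le_sup (f := fun κ => (Pool.Agent.H4.Cube.tops 1 κ).card) hκ)
    ⟨κ, hκ, hκq.symm⟩ (Or.inl rfl) N
  exact hne (hN m hm)

/-- Instance: all nonzero polynomials of total degree at most three in any number of
variables. -/
theorem cubic (n : ℕ) (f : MvPolynomial (Fin n) ℂ) (hf : f ≠ 0) (h : f.totalDegree ≤ 3) :
    ¬ ∃ N : ℕ, ∀ m : ℕ, N ≤ m →
      ∫ x in Set.Icc (0 : Fin n → ℝ) 1,
        MvPolynomial.eval (fun i => ((x i : ℝ) : ℂ)) (f ^ m) = 0 := by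
  rintro ⟨N, hN⟩
  obtain ⟨m, hm, hne⟩ := Pool.Agent.H4.Cube.cubic f hf h N
  exact hne (hN m hm)

/-- Instance: total degree at most `d * q + 1`, for example any polynomial of total degree `d`
that contains a pure power `x_i ^ d`. -/
theorem smallDegree (n d q : ℕ) (f : MvPolynomial (Fin n) ℂ) (hd : 1 ≤ d)
    (h1 : ∀ κ ∈ f.support, ∀ i, κ i ≤ d)
    (h2 : ∀ κ ∈ f.support, numTop d κ ≤ q) (h3 : ∃ κ ∈ f.support, numTop d κ = q)
    (h4 : f.totalDegree ≤ d * q + 1) :
    ¬ ∃ N : ℕ, ∀ m : ℕ, N ≤ m →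
      ∫ x in Set.Icc (0 : Fin n → ℝ) 1,
        MvPolynomial.eval (fun i => ((x i : ℝ) : ℂ)) (f ^ m) = 0 := by
  rintro ⟨N, hN⟩
  obtain ⟨m, hm, hne⟩ := Pool.Agent.H4.Cube.small (q := q) f hd h1 h2 h3 (Or.inr h4) N
  exact hne (hN m hm)

end Pool.Agent.Results.MP_47888e_al.SplitTop
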